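import Pool.Agent.P.MP_932208_ag.XF
import Pool.Agent.P.MP_932208_ag.ExG

namespace Pool.Agent.Old.MP_932208_ag.DetPush

open Pool.Agent.P.MP_932208_ag

universe u

theorem result {J : Type u} [Preorder J] {A B : RingDiagram J} (f : A.Hom B)
    (hf : IsVirtualCartierDivisor f) (F : PerfectComplex B) (l : ℤ) (hl : F.HasRank l) :
    (hf.lineOlZ (-1)).Equivalent f.ideal ∧ (hf.lineOlZ l).IsLineBundle ∧
    (∃ G : PerfectComplex A, Nonempty (PushforwardModel f G F) ∧ Nonempty G.C.Pairing) ∧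
    ∀ (G : PerfectComplex A) (_ : PushforwardModel f G F) (β : G.C.Pairing),
      (G.detLine β).IsLineBundle ∧ (G.detLine β).Equivalent (hf.lineOlZ l) :=
  ⟨hf.equivalent_ideal, hf.isLine_oz l, exists_push hf F, fun G ψ β =>
    ⟨(det_push_line f hf F l hl G ψ β).1, det_push f hf F l hl G ψ β⟩⟩

end Pool.Agent.Old.MP_932208_ag.DetPush
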